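import Pool.Agent.Q202.EDRP.Defs
import Pool.Agent.Q202.Ryll
import Mathlib.Topology.Separation.Basic
import Mathlib.Topology.Clopen
import Mathlib.Tactic.FinCases
import Mathlib.Data.Finset.NAry
import Mathlib.Topology.Ultrafilter

universe u

namespace Q202.EDRP

open FirstOrder FirstOrder.Language Topology

variable {L : Language.{0, 0}} {M : Type u} [L.Structure M] {n : ℕ}

namespace TypeOver

theorem ext {p q : TypeOver L M n} (h : ∀ φ, φ ∈ p.carrier ↔ φ ∈ q.carrier) : p = q := by
  cases p; cases q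
  congr
  exact Set.ext h

theorem nonempty_M (p : TypeOver L M n) (hn : 1 ≤ n) : Nonempty M := by
  obtain ⟨x, _⟩ := p.consistent ∅ (by simp)
  exact ⟨x ⟨0, hn⟩⟩

theorem not_mem_iff (p : TypeOver L M n) (φ : L.Formula (Fin n ⊕ M)) :
    φ.not ∈ p.carrier ↔ φ ∉ p.carrier := by
  constructor
  · intro h1 h2
    classical
    obtain ⟨x, hx⟩ := p.consistent {φ, φ.not} (by
      intro ψ hψ
      simp only [Finset.coe_insert, Finset.coe_singleton, Set.mem_insert_iff,
        Set.mem_singleton_iff] at hψ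
      rcases hψ with rfl | rfl
      · exact h2
      · exact h1)
    have h3 := hx φ (by simp)
    have h4 := hx φ.not (by simp)
    rw [Formula.realize_not] at h4
    exact h4 h3
  · intro h
    exact (p.complete φ).resolve_left h

/-- Undoing `moveFormula`. -/
def moveBack (g : M ≃[L] M) (φ : L.Formula (Fin n ⊕ M)) : L.Formula (Fin n ⊕ M) :=
  (BoundedFormula.relabelEquiv
    (_root_.Equiv.sumCongr (_root_.Equiv.refl (Fin n)) g.toEquiv)).symm φ

theorem moveFormula_moveBack (g : M ≃[L] M) (φ : L.Formula (Fin n ⊕ M)) :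
    moveFormula g (moveBack g φ) = φ := by
  unfold moveFormula moveBack
  exact Equiv.apply_symm_apply _ _

theorem moveBack_moveFormula (g : M ≃[L] M) (φ : L.Formula (Fin n ⊕ M)) :
    moveBack g (moveFormula g φ) = φ := by
  unfold moveFormula moveBack
  exact Equiv.symm_apply_apply _ _

theorem realize_moveFormula (g : M ≃[L] M) (φ : L.Formula (Fin n ⊕ M)) {N : Type*} [L.Structure N]
    (x : Fin n → N) (j : M → N) :
    (moveFormula g φ).Realize (Sum.elim x j) ↔ φ.Realize (Sum.elim x (fun b => j (g b))) := by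
  unfold moveFormula
  rw [Formula.Realize, BoundedFormula.realize_relabelEquiv]
  have : Sum.elim x j ∘ (_root_.Equiv.sumCongr (_root_.Equiv.refl (Fin n)) g.toEquiv) =
      Sum.elim x (fun b => j (g b)) := by
    funext z
    rcases z with z | z <;> rfl
  rw [this]
  rfl

theorem realize_moveBack (g : M ≃[L] M) (φ : L.Formula (Fin n ⊕ M)) {N : Type*} [L.Structure N]
    (x : Fin n → N) (j : M → N) :
    (moveBack g φ).Realize (Sum.elim x (fun b => j (g b))) ↔ φ.Realize (Sum.elim x j) := by
  rw [← realize_moveFormula, moveFormula_moveBack]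

/-- Translate of a type. -/
def smul (g : M ≃[L] M) (p : TypeOver L M n) : TypeOver L M n where
  carrier := {φ | moveBack g φ ∈ p.carrier}
  complete := by
    intro φ
    exact p.complete (moveBack g φ)
  consistent := by
    classical
    intro s hs
    obtain ⟨x, hx⟩ := p.consistent (s.image (moveBack g)) (by
      intro φ hφ
      rw [Finset.mem_coe, Finset.mem_image] at hφ
      obtain ⟨ψ, hψ, rfl⟩ := hφ
      exact hs hψ)
    refine ⟨g ∘ x, fun φ hφ => ?_⟩
    have h1 := hx _ (Finset.mem_image_of_mem _ hφ)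
    have h2 := (g.toElementaryEmbedding.map_formula (moveBack g φ) (Sum.elim x id)).2 h1
    rw [← realize_moveBack g]
    convert h2 using 1
    funext z
    rcases z with z | z <;> rfl

theorem mem_smul (g : M ≃[L] M) (p : TypeOver L M n) (φ : L.Formula (Fin n ⊕ M)) :
    φ ∈ (smul g p).carrier ↔ moveBack g φ ∈ p.carrier := Iff.rfl

theorem isTranslate_smul (g : M ≃[L] M) (p : TypeOver L M n) : IsTranslate g p (smul g p) := by
  unfold IsTranslate
  ext φ
  rw [mem_smul, Set.mem_image]
  constructor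
  · intro h
    exact ⟨_, h, moveFormula_moveBack g φ⟩
  · rintro ⟨ψ, hψ, rfl⟩
    rw [moveBack_moveFormula]
    exact hψ

theorem isTranslate_iff (g : M ≃[L] M) (p q : TypeOver L M n) :
    IsTranslate g p q ↔ q = smul g p := by
  constructor
  · intro h
    apply ext
    intro φ
    have h2 := isTranslate_smul g p
    rw [h, h2]
  · rintro rfl
    exact isTranslate_smul g p

theorem isOpen_mem (φ : L.Formula (Fin n ⊕ M)) : IsOpen {p : TypeOver L M n | φ ∈ p.carrier} :=
  TopologicalSpace.isOpen_generateFrom_of_mem ⟨φ, rfl⟩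

theorem isClopen_mem (φ : L.Formula (Fin n ⊕ M)) :
    IsClopen {p : TypeOver L M n | φ ∈ p.carrier} := by
  refine ⟨⟨?_⟩, isOpen_mem φ⟩
  have : {p : TypeOver L M n | φ ∈ p.carrier}ᶜ = {p : TypeOver L M n | φ.not ∈ p.carrier} := by
    ext p
    exact (not_mem_iff p φ).symm
  rw [this]
  exact isOpen_mem _

theorem isClosed_iff_mem (φ ψ : L.Formula (Fin n ⊕ M)) :
    IsClopen {p : TypeOver L M n | φ ∈ p.carrier ↔ ψ ∈ p.carrier} := by
  have : {p : TypeOver L M n | φ ∈ p.carrier ↔ ψ ∈ p.carrier} =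
      ({p : TypeOver L M n | φ ∈ p.carrier} ∩ {p : TypeOver L M n | ψ ∈ p.carrier}) ∪
      ({p : TypeOver L M n | φ ∈ p.carrier}ᶜ ∩ {p : TypeOver L M n | ψ ∈ p.carrier}ᶜ) := by
    ext p
    simp only [Set.mem_ofPred_eq, Set.mem_union, Set.mem_inter_iff, Set.mem_compl_iff]
    tauto
  rw [this]
  exact ((isClopen_mem φ).inter (isClopen_mem ψ)).union
    ((isClopen_mem φ).compl.inter (isClopen_mem ψ).compl)

instance : CompactSpace (TypeOver L M n) := by
  constructor
  rw [isCompact_iff_ultrafilter_le_nhds]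
  intro F _
  refine ⟨⟨{φ | {p : TypeOver L M n | φ ∈ p.carrier} ∈ F}, ?_, ?_⟩, trivial, ?_⟩
  · intro φ
    rcases Ultrafilter.mem_or_compl_mem F {p : TypeOver L M n | φ ∈ p.carrier} with h | h
    · exact Or.inl h
    · right
      refine Filter.mem_of_superset h ?_
      intro p hp
      exact (not_mem_iff p φ).2 hp
  · intro s hs
    have h1 : (⋂ φ ∈ s, {p : TypeOver L M n | φ ∈ p.carrier}) ∈ (F : Filter (TypeOver L M n)) := by
      rw [Filter.biInter_finset_mem]
      exact fun φ hφ => hs hφ
    obtain ⟨p, hp⟩ := F.neBot.nonempty_of_mem h1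
    refine p.consistent s (fun φ hφ => ?_)
    simp only [Set.mem_iInter] at hp
    exact hp φ hφ
  · rw [TopologicalSpace.nhds_generateFrom]
    apply le_iInf₂
    rintro _ ⟨hφ, φ, rfl⟩
    rw [Filter.le_principal_iff]
    exact hφ

theorem mem_congr (p : TypeOver L M n) {φ ψ : L.Formula (Fin n ⊕ M)}
    (h : ∀ x : Fin n → M, φ.Realize (Sum.elim x id) ↔ ψ.Realize (Sum.elim x id)) :
    φ ∈ p.carrier ↔ ψ ∈ p.carrier := by
  classical
  have key : ∀ φ ψ : L.Formula (Fin n ⊕ M),
      (∀ x : Fin n → M, φ.Realize (Sum.elim x id) ↔ ψ.Realize (Sum.elim x id)) →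
      φ ∈ p.carrier → ψ ∈ p.carrier := by
    intro φ ψ h h1
    by_contra h2
    obtain ⟨x, hx⟩ := p.consistent {φ, ψ.not} (by
      intro χ hχ
      simp only [Finset.coe_insert, Finset.coe_singleton, Set.mem_insert_iff,
        Set.mem_singleton_iff] at hχ
      rcases hχ with rfl | rfl
      · exact h1
      · exact (not_mem_iff p ψ).2 h2)
    have h3 := hx φ (by simp)
    have h4 := hx ψ.not (by simp)
    rw [Formula.realize_not] at h4
    exact h4 ((h x).1 h3)
  exact ⟨key φ ψ h, key ψ φ (fun x => (h x).symm)⟩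

theorem mem_of_realize (p : TypeOver L M n) (φ : L.Formula (Fin n ⊕ M))
    (h : ∀ x : Fin n → M, φ.Realize (Sum.elim x id)) : φ ∈ p.carrier := by
  classical
  by_contra h2
  obtain ⟨x, hx⟩ := p.consistent {φ.not} (by
      intro χ hχ
      simp only [Finset.coe_singleton, Set.mem_singleton_iff] at hχ
      rw [hχ]
      exact (not_mem_iff p φ).2 h2)
  have h4 := hx φ.not (by simp)
  rw [Formula.realize_not] at h4
  exact h4 (h x)

/-- Every type is realized in an elementary extension. -/
theorem exists_realize (p : TypeOver L M n) (hn : 1 ≤ n) :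
    ∃ (N : Type u) (_ : L.Structure N) (j : M ↪ₑ[L] N) (e : Fin n → N),
      ∀ φ, φ ∈ p.carrier ↔ φ.Realize (Sum.elim e j) := by
  classical
  have := nonempty_M p hn
  obtain ⟨N, v, hv⟩ := Q202.Ryll.exists_model_realize M p.carrier (by
    intro s hs
    obtain ⟨x, hx⟩ := p.consistent s hs
    exact ⟨_, hx⟩)
  have hv' : ∀ φ : L.Formula (Fin n ⊕ M), φ ∈ p.carrier ↔ φ.Realize v := by
    intro φ
    constructor
    · exact hv φ
    · intro h
      by_contra h2
      have := hv _ ((not_mem_iff p φ).2 h2)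
      rw [Formula.realize_not] at this
      exact this h
  let j : M ↪ₑ[L] N :=
    { toFun := fun b => v (Sum.inr b)
      map_formula' := by
        intro k φ x
        have h1 := hv' (φ.relabel (fun i => Sum.inr (x i)))
        rw [Formula.realize_relabel] at h1
        change φ.Realize (v ∘ fun i => Sum.inr (x i)) ↔ _
        rw [← h1]
        constructor
        · intro h
          by_contra h2
          have h3 : (φ.relabel (fun i => Sum.inr (x i)) : L.Formula (Fin n ⊕ M)).not ∈
              p.carrier := by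
            apply mem_of_realize
            intro y
            rw [Formula.realize_not, Formula.realize_relabel]
            exact h2
          exact (not_mem_iff p _).1 h3 h
        · intro h
          apply mem_of_realize
          intro y
          rw [Formula.realize_relabel]
          exact h }
  refine ⟨N, inferInstance, j, fun i => v (Sum.inl i), fun φ => ?_⟩
  rw [hv']
  have : v = Sum.elim (fun i => v (Sum.inl i)) j := by
    funext z
    rcases z with z | z <;> rfl
  rw [← this]

end TypeOver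

open TypeOver

omit [L.Structure M] in
/-- Formulas with parameters as parameter-free formulas in a tuple of parameters. -/
theorem exists_formula (φ : L.Formula (Fin n ⊕ M)) :
    ∃ (P : Finset M), ∀ (m : ℕ) (a : Fin m → M), (∀ b ∈ P, ∃ l, a l = b) →
      ∃ φ' : L.Formula (Fin n ⊕ Fin m), ∀ (N : Type u) [L.Structure N] (x : Fin n → N)
        (j : M → N), φ.Realize (Sum.elim x j) ↔ φ'.Realize (Sum.elim x (fun l => j (a l))) := by
  classical
  obtain ⟨s, ψ, hψ⟩ := Q202.Ryll.exists_support.{0, 0, u, u} φ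
  refine ⟨s.preimage Sum.inr Sum.inr_injective.injOn, fun m a ha => ?_⟩
  have h1 : ∀ z : s, ∃ w : Fin n ⊕ Fin m, ∀ (N : Type u) (x : Fin n → N) (j : M → N),
      Sum.elim x j z.1 = Sum.elim x (fun l => j (a l)) w := by
    rintro ⟨z, hz⟩
    rcases z with z | z
    · exact ⟨Sum.inl z, fun N x j => rfl⟩
    · obtain ⟨l, hl⟩ := ha z (by simpa using hz)
      refine ⟨Sum.inr l, fun N x j => ?_⟩
      simp [hl]
  choose f hf using h1
  refine ⟨ψ.relabel f, fun N _ x j => ?_⟩
  rw [Formula.realize_relabel, ← hψ N]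
  have : (fun z : s => Sum.elim x j z.1) = Sum.elim x (fun l => j (a l)) ∘ f := by
    funext z
    exact hf z N x j
  rw [this]

/-- The colour of the formula is constant along finitely many translates. -/
def ConstOn (h : M ≃[L] M) (φ : L.Formula (Fin n ⊕ M)) (E : Finset (M ≃[L] M))
    (p : TypeOver L M n) : Prop :=
  ∀ g ∈ E, ∀ g' ∈ E, (moveFormula (h.comp g) φ ∈ p.carrier ↔ moveFormula (h.comp g') φ ∈ p.carrier)

/-- A substructure of a relational structure with given universe. -/
def sub [L.IsRelational] (s : Set M) : L.Substructure M := ⟨s, fun f => isEmptyElim f⟩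

theorem star [L.IsRelational] (hU : L.IsUltrahomogeneous M) (hE : EDRP L M) (hn : 1 ≤ n)
    (φ : L.Formula (Fin n ⊕ M)) (E : Finset (M ≃[L] M)) (p : TypeOver L M n) :
    ∃ h : M ≃[L] M, ConstOn h φ E p := by
  classical
  obtain ⟨P, hP⟩ := exists_formula φ
  -- the structure `A` on the parameters
  let A : L.Substructure M := sub (P : Set M)
  have hAf : Finite A := P.finite_toSet
  obtain ⟨m, ⟨ea⟩⟩ := Finite.exists_equiv_fin A
  let a : Fin m → A := ea.symm
  obtain ⟨φ', hφ'⟩ := hP m (fun l => (a l : M)) (by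
    intro b hb
    exact ⟨ea ⟨b, hb⟩, by simp [a]⟩)
  -- the structure `B`
  let F : Finset M := E.biUnion (fun g => P.image g)
  let B : L.Substructure M := sub (F : Set M)
  have hBf : Finite B := F.finite_toSet
  obtain ⟨N, _, j, e, he⟩ := p.exists_realize hn
  let χ : tupleCopies L a M → Fin 2 := fun t =>
    if φ'.Realize (Sum.elim e (fun l => j (t.1 l))) then 1 else 0
  have hχ : ExternallyDefinable χ := by
    refine ⟨N, inferInstance, j, n, e, ![φ'.not, φ'], ?_⟩
    intro t i
    fin_cases i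
    · change _ ↔ (φ'.not).Realize _
      rw [Formula.realize_not]
      by_cases h : φ'.Realize (Sum.elim e (fun l => j (t.1 l))) <;> simp [χ, h]
    · change _ ↔ φ'.Realize _
      by_cases h : φ'.Realize (Sum.elim e (fun l => j (t.1 l))) <;> simp [χ, h]
  obtain ⟨B', ⟨f⟩, i, hi⟩ := hE m A a ea.symm.bijective ⟨A.subtype⟩ B hBf ⟨B.subtype⟩ 2 (by norm_num)
    χ hχ
  -- extend the isomorphism
  have hBfg : B.FG := by
    refine ⟨F, ?_⟩
    rw [← SetLike.coe_set_eq, Substructure.closure_eq_of_isRelational]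
    rfl
  obtain ⟨h, hh⟩ := hU B hBfg (B'.subtype.comp f.toEmbedding)
  have hh' : ∀ b : B, h b = f b := by
    intro b
    have := congrArg (fun q : B ↪[L] M => q b) hh
    exact this.symm
  refine ⟨h, ?_⟩
  have hmem : ∀ g ∈ E, ∀ x : A, g x ∈ B := by
    intro g hg x
    change g x ∈ (F : Set M)
    simp only [F, Finset.coe_biUnion, Set.mem_iUnion, Finset.coe_image]
    exact ⟨g, hg, ⟨x, x.2, rfl⟩⟩
  have hmono : ∀ g ∈ E, (moveFormula (h.comp g) φ ∈ p.carrier ↔ i = 1) := by
    intro g hg
    let gA : A ↪[L] B :=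
      { toFun := fun x => ⟨g x, hmem g hg x⟩
        inj' := by
          intro x y hxy
          apply Subtype.ext
          exact g.injective (congrArg Subtype.val hxy)
        map_fun' := fun f => isEmptyElim f
        map_rel' := by
          intro k r x
          exact g.map_rel r (fun l => (x l : M)) }
    have ht : (fun l => h (g (a l))) ∈ tupleCopies L a M :=
      ⟨(h.comp g).toEmbedding.comp A.subtype, rfl⟩
    have h1 := hi ⟨_, ht⟩ ⟨_, ⟨f.toEmbedding.comp gA, rfl⟩, by
      funext l
      exact hh' (gA (a l))⟩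
    rw [he, realize_moveFormula, hφ' N, ← h1]
    simp only [χ]
    change φ'.Realize (Sum.elim e fun l => j (h (g (a l)))) ↔ _
    by_cases h2 : φ'.Realize (Sum.elim e fun l => j (h (g (a l)))) <;> simp [h2]
  intro g hg g' hg'
  rw [hmono g hg, hmono g' hg']

theorem isOpen_constOn (h : M ≃[L] M) (φ : L.Formula (Fin n ⊕ M)) (E : Finset (M ≃[L] M)) :
    IsOpen {p : TypeOver L M n | ConstOn h φ E p} := by
  have : {p : TypeOver L M n | ConstOn h φ E p} = ⋂ g ∈ E, ⋂ g' ∈ E,
      {p : TypeOver L M n | moveFormula (h.comp g) φ ∈ p.carrier ↔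
        moveFormula (h.comp g') φ ∈ p.carrier} := by
    ext p
    simp only [ConstOn, Set.mem_iInter, Set.mem_ofPred_eq]
  rw [this]
  refine isOpen_biInter_finset (fun g _ => isOpen_biInter_finset (fun g' _ => ?_))
  exact (isClosed_iff_mem _ _).isOpen

theorem uniform [L.IsRelational] (hU : L.IsUltrahomogeneous M) (hE : EDRP L M) (hn : 1 ≤ n)
    (φ : L.Formula (Fin n ⊕ M)) (E : Finset (M ≃[L] M)) :
    ∃ H : Finset (M ≃[L] M), ∀ p : TypeOver L M n, ∃ h ∈ H, ConstOn h φ E p := by
  obtain ⟨H, hH⟩ := (isCompact_univ (X := TypeOver L M n)).elim_finite_subcover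
    (fun h : M ≃[L] M => {p : TypeOver L M n | ConstOn h φ E p})
    (fun h => isOpen_constOn h φ E) (by
      intro p _
      rw [Set.mem_iUnion]
      exact star hU hE hn φ E p)
  refine ⟨H, fun p => ?_⟩
  have := hH (Set.mem_univ p)
  simp only [Set.mem_iUnion] at this
  obtain ⟨h, hh, hp⟩ := this
  exact ⟨h, hh, hp⟩

theorem mem_smul_symm (k g : M ≃[L] M) (φ : L.Formula (Fin n ⊕ M)) (p : TypeOver L M n) :
    moveFormula g φ ∈ (smul k.symm p).carrier ↔ moveFormula (k.comp g) φ ∈ p.carrier := by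
  rw [mem_smul]
  apply mem_congr
  intro x
  rw [realize_moveFormula]
  have h1 := realize_moveBack k.symm (moveFormula g φ) x (fun b => k b)
  have h2 : (fun b : M => k (k.symm b)) = id := by
    funext b
    simp
  rw [h2] at h1
  rw [h1, realize_moveFormula]
  rfl

theorem mem_smul_symm' (k : M ≃[L] M) (φ : L.Formula (Fin n ⊕ M)) (p : TypeOver L M n) :
    φ ∈ (smul k.symm p).carrier ↔ moveFormula k φ ∈ p.carrier := by
  rw [mem_smul]
  apply mem_congr
  intro x
  rw [realize_moveFormula]
  have h1 := realize_moveBack k.symm φ x (fun b => k b)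
  have h2 : (fun b : M => k (k.symm b)) = id := by
    funext b
    simp
  rw [h2] at h1
  rw [h1]
  rfl

theorem multi [L.IsRelational] (hU : L.IsUltrahomogeneous M) (hE : EDRP L M) (hn : 1 ≤ n)
    (Φ : List (L.Formula (Fin n ⊕ M))) : ∀ (E : Finset (M ≃[L] M)) (p : TypeOver L M n),
    ∃ h : M ≃[L] M, ∀ φ ∈ Φ, ConstOn h φ E p := by
  classical
  induction Φ with
  | nil => intro E p; exact ⟨FirstOrder.Language.Equiv.refl L M, by simp⟩
  | cons φ Φ ih =>
    intro E p
    obtain ⟨H, hH⟩ := uniform hU hE hn φ E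
    obtain ⟨k, hk⟩ := ih (Finset.image₂ (fun h g => h.comp g) H E) p
    obtain ⟨h, hh, hh'⟩ := hH (smul k.symm p)
    refine ⟨k.comp h, fun ψ hψ => ?_⟩
    rcases List.mem_cons.1 hψ with rfl | hψ
    · intro g hg g' hg'
      have h1 := hh' g hg g' hg'
      rw [mem_smul_symm, mem_smul_symm] at h1
      exact h1
    · intro g hg g' hg'
      exact hk ψ hψ (h.comp g) (Finset.mem_image₂.2 ⟨h, hh, g, hg, rfl⟩) (h.comp g')
        (Finset.mem_image₂.2 ⟨h, hh, g', hg', rfl⟩)

/-- **EDRP implies FPT.** -/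
theorem fpt_of_edrp [L.IsRelational] (hU : L.IsUltrahomogeneous M) (hE : EDRP L M) :
    FPT L M := by
  classical
  intro n hn X hX
  obtain ⟨⟨q, hq⟩, hXc, hXi⟩ := hX
  have hXi' : ∀ p ∈ X, ∀ g : M ≃[L] M, smul g p ∈ X := fun p hp g =>
    hXi p hp g _ (isTranslate_smul g p)
  let K : L.Formula (Fin n ⊕ M) × (M ≃[L] M) → Set (TypeOver L M n) := fun c =>
    {p | c.1 ∈ p.carrier ↔ moveFormula c.2 c.1 ∈ p.carrier}
  obtain ⟨p, hpX, hp⟩ := hXc.isCompact.inter_iInter_nonempty K
    (fun c => (isClosed_iff_mem _ _).isClosed) (by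
      intro u
      obtain ⟨h, hh⟩ := multi hU hE hn (u.toList.map Prod.fst)
        (insert (FirstOrder.Language.Equiv.refl L M) (u.image Prod.snd)) q
      refine ⟨smul h.symm q, hXi' q hq _, ?_⟩
      simp only [Set.mem_iInter]
      rintro ⟨φ, g⟩ hc
      change φ ∈ _ ↔ moveFormula g φ ∈ _
      rw [mem_smul_symm, mem_smul_symm']
      have h1 := hh φ (List.mem_map.2 ⟨(φ, g), by simpa using hc, rfl⟩)
        (FirstOrder.Language.Equiv.refl L M) (Finset.mem_insert_self _ _) g
        (Finset.mem_insert_of_mem (Finset.mem_image.2 ⟨(φ, g), hc, rfl⟩))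
      exact h1)
  refine ⟨p, hpX, fun g => ?_⟩
  rw [isTranslate_iff]
  apply TypeOver.ext
  intro φ
  rw [mem_smul]
  simp only [Set.mem_iInter] at hp
  have h1 : moveBack g φ ∈ p.carrier ↔ moveFormula g (moveBack g φ) ∈ p.carrier :=
    hp (moveBack g φ, g)
  rw [moveFormula_moveBack] at h1
  exact h1.symm

end Q202.EDRP
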