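import Mathlib.ModelTheory.Fraisse
import Mathlib.ModelTheory.ElementaryMaps
import Mathlib.Topology.Order
import Mathlib.Topology.Compactness.Compact

/-!
# The externally definable Ramsey property and fixed points on type spaces
-/

universe u

namespace Q202.EDRP

open FirstOrder FirstOrder.Language

variable (L : Language.{0, 0})

/-- `binom(D, ā)`: the tuples `f(ā)` for `f : A → D` an embedding, where `ā` is an enumeration of
the finite structure `A`. -/
def tupleCopies {A : Type u} [L.Structure A] {m : ℕ} (a : Fin m → A) (D : Type u)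
    [L.Structure D] : Set (Fin m → D) :=
  {t | ∃ f : A ↪[L] D, t = f ∘ a}

variable {L} in
/-- The colouring `χ` of `binom(M, ā)` with `k` colours is externally definable: there are an
elementary extension `j : M → N`, a finite tuple `e` in `N` and parameter-free formulas
`φ i`, `i < k`, such that `χ(t) = i` if and only if `N ⊨ φ i (e, t)`, for all `t ∈ binom(M, ā)` and
`i < k`. -/
def ExternallyDefinable {A : Type u} [L.Structure A] {m : ℕ} {a : Fin m → A} {M : Type u}
    [L.Structure M] {k : ℕ} (χ : tupleCopies L a M → Fin k) : Prop :=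
  ∃ (N : Type u) (_ : L.Structure N) (j : M ↪ₑ[L] N) (r : ℕ) (e : Fin r → N)
    (φ : Fin k → L.Formula (Fin r ⊕ Fin m)),
    ∀ (t : tupleCopies L a M) (i : Fin k),
      χ t = i ↔ (φ i).Realize (Sum.elim e (fun l => j (t.1 l)))

/-- The externally definable Ramsey property: for all finite `A` (enumerated by `ā`) and `B` in
`Age(M)`, all `k ≥ 1` and every externally definable colouring of `binom(M, ā)` with `k` colours
there is a substructure `B'` of `M` isomorphic to `B` such that the colouring is constant on
`binom(B', ā)`. -/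
def EDRP (M : Type u) [L.Structure M] : Prop :=
  ∀ (m : ℕ) (A : Type u) [L.Structure A] (a : Fin m → A), Function.Bijective a →
    Nonempty (A ↪[L] M) →
    ∀ (B : Type u) [L.Structure B], Finite B → Nonempty (B ↪[L] M) →
    ∀ (k : ℕ), 1 ≤ k → ∀ χ : tupleCopies L a M → Fin k, ExternallyDefinable χ →
      ∃ B' : L.Substructure M, Nonempty (B ≃[L] B') ∧
        ∃ i : Fin k, ∀ t : tupleCopies L a M,
          (∃ s ∈ tupleCopies L a B', t.1 = fun l => (s l : M)) → χ t = i

/-- A complete `n`-type over `M`: a set of formulas `φ(x, b)` in the variables `x = (x_i)_{i<n}`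
with parameters `b` from `M` (formulas whose free variables are indexed by `Fin n ⊕ M`, the
variable indexed by `b : M` standing for the parameter `b`) which contains each such formula or its
negation and is finitely satisfiable in `M` (equivalently: consistent with the elementary diagram
of `M`). -/
structure TypeOver (M : Type u) [L.Structure M] (n : ℕ) where
  /-- The formulas in the type. -/
  carrier : Set (L.Formula (Fin n ⊕ M))
  /-- Completeness. -/
  complete : ∀ φ : L.Formula (Fin n ⊕ M), φ ∈ carrier ∨ φ.not ∈ carrier
  /-- Consistency with the elementary diagram of `M`. -/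
  consistent : ∀ s : Finset (L.Formula (Fin n ⊕ M)), (s : Set _) ⊆ carrier →
    ∃ x : Fin n → M, ∀ φ ∈ s, φ.Realize (Sum.elim x id)

/-- The Stone topology on `S_n(M)`, generated by the sets `{p | φ ∈ p}`. -/
instance (M : Type u) [L.Structure M] (n : ℕ) : TopologicalSpace (TypeOver L M n) :=
  TopologicalSpace.generateFrom (Set.range fun φ => {p : TypeOver L M n | φ ∈ p.carrier})

variable {L} in
/-- The formula `φ(x, g b)` obtained from `φ(x, b)` by moving the parameters with `g`, i.e. by
renaming the variables along the bijection `id ⊕ g` of `Fin n ⊕ M`. -/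
def moveFormula {M : Type u} [L.Structure M] {n : ℕ} (g : M ≃[L] M)
    (φ : L.Formula (Fin n ⊕ M)) : L.Formula (Fin n ⊕ M) :=
  BoundedFormula.relabelEquiv (_root_.Equiv.sumCongr (_root_.Equiv.refl (Fin n)) g.toEquiv) φ

variable {L} in
/-- `q = g · p`, i.e. `q = {φ(x, g b) | φ(x, b) ∈ p}`. -/
def IsTranslate {M : Type u} [L.Structure M] {n : ℕ} (g : M ≃[L] M) (p q : TypeOver L M n) :
    Prop :=
  q.carrier = moveFormula g '' p.carrier

/-- A subflow of `S_n(M)`: a nonempty closed `Aut(M)`-invariant set. -/
def IsSubflow (M : Type u) [L.Structure M] (n : ℕ) (X : Set (TypeOver L M n)) : Prop :=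
  X.Nonempty ∧ IsClosed X ∧
    ∀ p ∈ X, ∀ (g : M ≃[L] M) (q : TypeOver L M n), IsTranslate g p q → q ∈ X

/-- Fixed points on type spaces: for every `n ≥ 1`, every subflow of `S_n(M)` contains a type `p`
with `g · p = p` for all `g ∈ Aut(M)`. -/
def FPT (M : Type u) [L.Structure M] : Prop :=
  ∀ n : ℕ, 1 ≤ n → ∀ X : Set (TypeOver L M n), IsSubflow L M n X →
    ∃ p ∈ X, ∀ g : M ≃[L] M, IsTranslate g p p

end Q202.EDRP
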